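import Pool.Agent.Mg.F61a8e3.G2e450a
import Pool.Agent.MP_61a8e3_al.TStmt

set_option autoImplicit false

namespace Pool.Agent.Results.MP_61a8e3_al.GenusThreeInfiniteImage

open Pool.Agent.MP_61a8e3_al Pool.Agent.MP_61a8e3_al.Stmt

/-- Some finite-index subgroup of the outer automorphism group of the genus three surface group
has, for every genus `h ≥ 1`, a homomorphism to the outer automorphism group of the genus `h`
surface group whose image is infinite cyclic. -/
theorem result :
    ∃ Γ : Subgroup (Out (Surf 3)), Γ.FiniteIndex ∧
      ∀ h : ℕ, 1 ≤ h → HasIntImage Γ (Out (Surf h)) :=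
  T.main_cyc

end Pool.Agent.Results.MP_61a8e3_al.GenusThreeInfiniteImage
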